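import Mathlib
import Pool.Agent.Lib_MP_4d2e3d_co.Defs

/-!
For every finite field `F` and every finite extension `K` of `F` (so for every pair `(q, m)`),
there is a q-matroid `M` over `F` whose projectivization matroid is `K`-representable while `M`
itself is not `K`-representable.  The witness is the uniform q-matroid of rank one on `F ^ (m+1)`.
-/

set_option autoImplicit false

open scoped LinearAlgebra.Projectivization
open Module

namespace Pool.Agent.QMat

/-- The uniform q-matroid of rank one: `ρ(0) = 0` and `ρ(V) = 1` for all nonzero `V`. -/
noncomputable def rankOne (F E : Type) [Field F] [AddCommGroup E] [Module F E]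
    [FiniteDimensional F E] : QMatroid F E := by
  classical
  exact
  { rk := fun V => if V = ⊥ then 0 else 1
    rk_le_finrank := by
      intro V
      by_cases h : V = ⊥
      · simp [h]
      · simp only [h, if_false]
        have : Nontrivial V := Submodule.nontrivial_iff_ne_bot.mpr h
        exact Module.finrank_pos
    rk_mono := by
      intro U V hUV
      by_cases h : U = ⊥
      · simp [h]
      · have : V ≠ ⊥ := fun hV => h (le_bot_iff.mp (hV ▸ hUV))
        simp [h, this]
    rk_submod := by
      intro U V
      by_cases h : U = ⊥
      · simp [h]
      · by_cases h' : V = ⊥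
        · simp [h']
        · have h1 : (if U ⊔ V = ⊥ then 0 else 1) ≤ 1 := by split_ifs <;> omega
          have h2 : (if U ⊓ V = ⊥ then 0 else 1) ≤ 1 := by split_ifs <;> omega
          simp only [h, h', if_false]
          omega }

theorem rankOne_rk {F E : Type} [Field F] [AddCommGroup E] [Module F E]
    [FiniteDimensional F E] (V : Submodule F E) (h : V ≠ ⊥) : (rankOne F E).rk V = 1 := by
  simp [rankOne, h]

theorem rankOne_rk_bot {F E : Type} [Field F] [AddCommGroup E] [Module F E]
    [FiniteDimensional F E] : (rankOne F E).rk ⊥ = 0 := by
  simp [rankOne]

theorem rankOne_projRank {F E : Type} [Field F] [AddCommGroup E] [Module F E]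
    [FiniteDimensional F E] (A : Set (ℙ F E)) (h : A.Nonempty) :
    (rankOne F E).projRank A = 1 := by
  apply rankOne_rk
  obtain ⟨p, hp⟩ := h
  intro hbot
  have h1 : p.submodule ≤ (⊥ : Submodule F E) := by
    rw [← hbot]
    exact le_iSup₂_of_le p hp le_rfl
  have h2 : p.rep ∈ p.submodule := by
    rw [Projectivization.submodule_eq]
    exact Submodule.mem_span_singleton_self _
  exact p.rep_nonzero ((Submodule.mem_bot F).mp (h1 h2))

end Pool.Agent.QMat

namespace Pool.Agent.Results.MP_4d2e3d_co.AllParams

open Pool.Agent.QMat

theorem result :
    ∀ (F K : Type) [Field F] [Finite F] [Field K] [Finite K] [Algebra F K],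
      ∃ (n : ℕ) (M : QMatroid F (Fin n → F)),
        IsRepresentable K M.projRank ∧ ¬ M.IsRepresentable K := by
  intro F K _ _ _ _ _
  have hfin : FiniteDimensional F K := Module.Finite.of_finite
  refine ⟨finrank F K + 1, rankOne F _, ?_, ?_⟩
  · -- all points of the projectivization are parallel and none is a loop
    have : Finite (ℙ F (Fin (finrank F K + 1) → F)) := by
      unfold Projectivization
      exact Quotient.finite _
    obtain ⟨n, ⟨e⟩⟩ := Finite.exists_equiv_fin (ℙ F (Fin (finrank F K + 1) → F))
    refine ⟨1, n, Matrix.of fun _ _ => 1, e, ?_⟩
    intro A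
    rcases A.eq_empty_or_nonempty with rfl | hA
    · rw [Set.image_empty, Set.image_empty, Submodule.span_empty, finrank_bot]
      simp [QMatroid.projRank, rankOne_rk_bot]
    · rw [rankOne_projRank A hA]
      have himg : ((fun j => (Matrix.of fun (_ : Fin 1) (_ : Fin n) => (1 : K)).col j) '' (e '' A))
          = {(fun _ => 1 : Fin 1 → K)} := by
        ext x
        constructor
        · rintro ⟨j, _, rfl⟩
          rfl
        · intro hx
          obtain ⟨p, hp⟩ := hA
          refine ⟨e p, ⟨p, hp, rfl⟩, ?_⟩
          rw [Set.mem_singleton_iff] at hx
          rw [hx]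
          rfl
      have h3 := finrank_span_singleton (K := K) (v := (fun _ => 1 : Fin 1 → K)) (by
        intro h
        have := congrFun h 0
        simp at this)
      rw [himg]
      exact h3.symm
  · rintro ⟨k, n, G, e, h⟩
    -- the `F`-linear map `v ↦ G v`
    have hn : n = finrank F K + 1 := by
      have := e.finrank_eq
      simpa using this.symm
    -- rank of `G` is one
    have hG : G.rank = 1 := by
      have := h ⊤ n 1 (by
        rw [Submodule.map_top, LinearEquiv.range]
        have : (fun j => Matrix.col (1 : Matrix (Fin n) (Fin n) F) j) = fun j => Pi.single j 1 := by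
          funext j i
          simp [Matrix.col, Matrix.one_apply, Pi.single_apply]
        rw [this]
        exact (Pi.basisFun F (Fin n)).span_eq ▸ (by congr 1; ext x; simp [Pi.basisFun_apply]))
      rw [rankOne_rk] at this
      · simpa using this.symm
      · intro htop
        have : Nontrivial (Fin (finrank F K + 1) → F) := inferInstance
        exact absurd htop top_ne_bot
    let φ : (Fin n → F) →ₗ[F] (Fin k → K) :=
      (G.mulVecLin.restrictScalars F).comp
        ((Algebra.linearMap F K).compLeft (Fin n))
    have hφ : ∀ v, φ v = G.mulVec (fun i => algebraMap F K (v i)) := fun v => rfl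
    have hinj : Function.Injective φ := by
      rw [← LinearMap.ker_eq_bot, LinearMap.ker_eq_bot']
      intro v hv
      by_contra hv0
      have := h (Submodule.span F {e.symm v}) 1 (Matrix.of fun i _ => v i) (by
        rw [Submodule.map_span]
        congr 1
        ext x
        constructor
        · rintro ⟨j, rfl⟩
          exact ⟨e.symm v, rfl, by simp; rfl⟩
        · rintro ⟨y, hy, rfl⟩
          rw [Set.mem_singleton_iff] at hy
          subst hy
          exact ⟨0, by simp; rfl⟩)
      rw [rankOne_rk] at this
      · have hz : G * ((Matrix.of fun i _ => v i : Matrix (Fin n) (Fin 1) F).map (algebraMap F K)) = 0 := by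
          ext i j
          have := congrFun hv i
          rw [hφ] at this
          simpa [Matrix.mul_apply, Matrix.mulVec, dotProduct, Matrix.of_apply] using this
        rw [hz, Matrix.rank_zero] at this
        omega
      · intro hbot
        rw [Submodule.span_singleton_eq_bot] at hbot
        exact hv0 (by simpa using hbot)
    -- the range of `φ` lies in the column space of `G`
    have hrange : LinearMap.range φ ≤ (LinearMap.range G.mulVecLin).restrictScalars F := by
      rintro _ ⟨v, rfl⟩
      exact ⟨_, rfl⟩
    have h1 : finrank F (LinearMap.range φ) = n := by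
      rw [LinearMap.finrank_range_of_inj hinj]
      simp
    have h2 : finrank F ((LinearMap.range G.mulVecLin).restrictScalars F) = finrank F K := by
      have h3 : finrank F (LinearMap.range G.mulVecLin) = finrank F K * finrank K (LinearMap.range G.mulVecLin) :=
        (Module.finrank_mul_finrank F K _).symm
      have h4 : finrank K (LinearMap.range G.mulVecLin) = 1 := hG
      rw [h4, mul_one] at h3
      exact h3
    have h5 : FiniteDimensional F ((LinearMap.range G.mulVecLin).restrictScalars F) := by
      have : FiniteDimensional F (Fin k → K) := inferInstance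
      infer_instance
    have h6 := Submodule.finrank_mono hrange
    rw [h1, h2] at h6
    omega

end Pool.Agent.Results.MP_4d2e3d_co.AllParams
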