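import Mathlib
import Pool.Agent.Lib_MP_4d2e3d_co.Defs

/-!
For every finite field `F` there is one q-matroid `M` of rank two on a `4`-dimensional space, in
which every one-dimensional subspace has rank one, such that `P(M)` is representable over every
extension of `F` of degree at least `3`, while `M` is not representable over any extension of `F`.

The witness: let `L` be the quadratic extension of `F` and `E = L × L`.  The Desarguesian spread of
`E` consists of the lines `y = c x` (`c ∈ L`) and of the line `x = 0`.  Break the last line into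
its points and take the rank-two q-matroid of the resulting partition of `E`.
-/

set_option autoImplicit false

open scoped LinearAlgebra.Projectivization
open Module

namespace Pool.Agent.QMat

/-- A basis-free consequence of representability. -/
theorem QMatroid.IsRepresentable.exists_linearMap {F E K : Type} [Field F] [AddCommGroup E]
    [Module F E] [Field K] [Algebra F K] {M : QMatroid F E} (hM : M.IsRepresentable K) :
    ∃ (k : ℕ) (φ : E →ₗ[F] (Fin k → K)), ∀ V : Submodule F E,
      M.rk V = finrank K (Submodule.span K (φ '' (V : Set E))) := by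
  obtain ⟨k, n, G, e, h⟩ := hM
  let ψ : (Fin n → F) →ₗ[F] (Fin k → K) :=
    (G.mulVecLin.restrictScalars F).comp ((Algebra.linearMap F K).compLeft (Fin n))
  have hψ : ∀ v, ψ v = G.mulVec (fun i => algebraMap F K (v i)) := fun v => rfl
  refine ⟨k, ψ.comp e.toLinearMap, fun V => ?_⟩
  obtain ⟨s, hs⟩ : ∃ s : Finset (Fin n → F), Submodule.span F (s : Set (Fin n → F)) =
      V.map e.toLinearMap := (IsNoetherian.noetherian (V.map e.toLinearMap))
  obtain ⟨f⟩ : Nonempty (Fin s.card ≃ s) := ⟨s.equivFin.symm⟩
  have hY := h V s.card (Matrix.of fun i j => (f j : Fin n → F) i) (by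
    rw [← hs]
    congr 1
    ext x
    constructor
    · rintro ⟨j, rfl⟩
      exact (f j).2
    · intro hx
      exact ⟨f.symm ⟨x, hx⟩, by funext i; simp⟩)
  rw [hY, Matrix.rank_eq_finrank_span_cols]
  have hcols : ∀ j, (G * (Matrix.of fun i j => (f j : Fin n → F) i).map (algebraMap F K)).col j
      = ψ (f j) := by
    intro j
    rw [hψ]
    funext i
    simp [Matrix.col_apply, Matrix.mul_apply, Matrix.mulVec, dotProduct]
  have hset : Set.range (fun j => (G * (Matrix.of fun i j => (f j : Fin n → F) i).map
      (algebraMap F K)).col j) = ψ '' (s : Set (Fin n → F)) := by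
    ext x
    constructor
    · rintro ⟨j, rfl⟩
      exact ⟨f j, (f j).2, (hcols j).symm⟩
    · rintro ⟨y, hy, rfl⟩
      exact ⟨f.symm ⟨y, hy⟩, by simp only [hcols]; simp⟩
  have hspan : Submodule.span K (ψ '' (s : Set (Fin n → F))) =
      Submodule.span K ((ψ.comp e.toLinearMap) '' (V : Set E)) := by
    apply le_antisymm
    · apply Submodule.span_mono
      rintro _ ⟨y, hy, rfl⟩
      have : y ∈ V.map e.toLinearMap := hs ▸ Submodule.subset_span hy
      obtain ⟨v, hv, rfl⟩ := this
      exact ⟨v, hv, rfl⟩
    · rw [Submodule.span_le]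
      rintro _ ⟨v, hv, rfl⟩
      have h1 : e v ∈ Submodule.span F (s : Set (Fin n → F)) := by
        rw [hs]
        exact ⟨v, hv, rfl⟩
      have h2 : ψ (e v) ∈ Submodule.span F (ψ '' (s : Set (Fin n → F))) := by
        rw [← Submodule.map_span]
        exact ⟨_, h1, rfl⟩
      exact (Submodule.span_le_restrictScalars F K _) h2
  have hfinal : Submodule.span K (Set.range (G * (Matrix.of fun i j => (f j : Fin n → F) i).map
      (algebraMap F K)).col) = Submodule.span K ((ψ.comp e.toLinearMap) '' (V : Set E)) := by
    rw [← hspan, ← hset]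
  rw [hfinal]

section Broken

variable (F L : Type) [Field F] [Field L] [Algebra F L]

/-- the `F`-subspace `{(x, c x)}` of `L × L` -/
def spreadLine (c : L) : Submodule F (L × L) :=
  LinearMap.graph ((LinearMap.mulLeft F c : L →ₗ[F] L))

variable {F L}

theorem mem_spreadLine {c : L} {v : L × L} : v ∈ spreadLine F L c ↔ v.2 = c * v.1 := by
  simp [spreadLine, LinearMap.mem_graph_iff]

/-- a subspace is thin if it is one-dimensional or contained in a line `y = c x` -/
def Thin (V : Submodule F (L × L)) : Prop := finrank F V = 1 ∨ ∃ c : L, V ≤ spreadLine F L c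

theorem Thin.mono [FiniteDimensional F L] {U V : Submodule F (L × L)} (hV : Thin V) (hUV : U ≤ V)
    (hU : U ≠ ⊥) : Thin U := by
  rcases hV with h | ⟨c, hc⟩
  · left
    have h1 := Submodule.finrank_mono hUV
    have : Nontrivial U := Submodule.nontrivial_iff_ne_bot.mpr hU
    have h2 : 0 < finrank F U := Module.finrank_pos
    omega
  · exact Or.inr ⟨c, hUV.trans hc⟩

theorem Thin.sup [FiniteDimensional F L] {U V : Submodule F (L × L)} (hU : Thin U) (hV : Thin V)
    (h : U ⊓ V ≠ ⊥) : Thin (U ⊔ V) := by
  have key : ∀ {U V : Submodule F (L × L)}, finrank F U = 1 → Thin V → U ⊓ V ≠ ⊥ →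
      Thin (U ⊔ V) := by
    intro U V h1 hV h
    have hle : U ≤ V := by
      have h2 : U ⊓ V ≤ U := inf_le_left
      have h3 : 0 < finrank F (U ⊓ V : Submodule F (L × L)) := by
        have : Nontrivial (U ⊓ V : Submodule F (L × L)) := Submodule.nontrivial_iff_ne_bot.mpr h
        exact Module.finrank_pos
      have h4 : U ⊓ V = U := Submodule.eq_of_le_of_finrank_le h2 (by omega)
      exact inf_eq_left.mp h4
    rwa [sup_eq_right.mpr hle]
  rcases hU with h1 | ⟨c, hc⟩
  · exact key h1 hV h
  · rcases hV with h2 | ⟨d, hd⟩
    · rw [sup_comm]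
      rw [inf_comm] at h
      exact key h2 (Or.inr ⟨c, hc⟩) h
    · obtain ⟨v, hv, hv0⟩ := Submodule.exists_mem_ne_zero_of_ne_bot h
      have e1 := mem_spreadLine.mp (hc hv.1)
      have e2 := mem_spreadLine.mp (hd hv.2)
      have hx : v.1 ≠ 0 := by
        intro hx
        apply hv0
        rw [hx, mul_zero] at e1
        exact Prod.ext hx e1
      have : c = d := mul_right_cancel₀ hx (e1.symm.trans e2)
      subst this
      exact Or.inr ⟨c, sup_le hc hd⟩

/-- the rank-two q-matroid of the partition of `L × L` given by the lines `y = c x` and the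
points of the line `x = 0` -/
noncomputable def brokenSpread (F L : Type) [Field F] [Field L] [Algebra F L]
    [FiniteDimensional F L] : QMatroid F (L × L) := by
  classical
  exact
  { rk := fun V => if V = ⊥ then 0 else if Thin V then 1 else 2
    rk_le_finrank := by
      intro V
      by_cases h : V = ⊥
      · simp [h]
      · have : Nontrivial V := Submodule.nontrivial_iff_ne_bot.mpr h
        have h0 : 0 < finrank F V := Module.finrank_pos
        by_cases h' : Thin V
        · simp only [h, h', if_false, if_true]
          exact h0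
        · simp only [h, h', if_false]
          have h1 : finrank F V ≠ 1 := fun h1 => h' (Or.inl h1)
          omega
    rk_mono := by
      intro U V hUV
      by_cases hU : U = ⊥
      · simp [hU]
      · have hV : V ≠ ⊥ := fun hV => hU (le_bot_iff.mp (hV ▸ hUV))
        by_cases hV' : Thin V
        · simp [hU, hV, hV', hV'.mono hUV hU]
        · simp only [hU, hV, hV', if_false]
          split_ifs <;> omega
    rk_submod := by
      intro U V
      by_cases hU : U = ⊥
      · simp [hU]
      · by_cases hV : V = ⊥
        · simp [hV]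
        · have hUV : U ⊔ V ≠ ⊥ := fun h => hU (le_bot_iff.mp (h ▸ le_sup_left))
          by_cases hU' : Thin U
          · by_cases hV' : Thin V
            · by_cases hb : U ⊓ V = ⊥
              · simp only [hU, hV, hUV, hU', hV', hb, if_false, if_true]
                split_ifs <;> omega
              · have h1 := hU'.sup hV' hb
                have h2 := hU'.mono inf_le_left hb
                simp [hU, hV, hUV, hU', hV', hb, h1, h2]
            · have h3 : (if U ⊓ V = ⊥ then 0 else if Thin (U ⊓ V) then 1 else 2) ≤ 1 := by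
                by_cases hb : U ⊓ V = ⊥
                · simp [hb]
                · simp [hb, hU'.mono inf_le_left hb]
              simp only [hU, hV, hUV, hU', hV', if_false, if_true]
              split_ifs at * <;> omega
          · by_cases hV' : Thin V
            · have h3 : (if U ⊓ V = ⊥ then 0 else if Thin (U ⊓ V) then 1 else 2) ≤ 1 := by
                by_cases hb : U ⊓ V = ⊥
                · simp [hb]
                · simp [hb, hV'.mono inf_le_right hb]
              simp only [hU, hV, hUV, hU', hV', if_false, if_true]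
              split_ifs at * <;> omega
            · simp only [hU, hV, hUV, hU', hV', if_false]
              split_ifs <;> omega }

section FD

variable [FiniteDimensional F L]

theorem brokenSpread_bot : (brokenSpread F L).rk ⊥ = 0 := by
  simp [brokenSpread]

theorem brokenSpread_thin {V : Submodule F (L × L)} (h0 : V ≠ ⊥) (h : Thin V) :
    (brokenSpread F L).rk V = 1 := by
  simp [brokenSpread, h0, h]

theorem brokenSpread_not_thin {V : Submodule F (L × L)} (h0 : V ≠ ⊥) (h : ¬ Thin V) :
    (brokenSpread F L).rk V = 2 := by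
  simp [brokenSpread, h0, h]

end FD

/-- the block of the partition containing a point of `ℙ(L × L)` -/
noncomputable def blockOf (F L : Type) [Field F] [Field L] [Algebra F L] (p : ℙ F (L × L)) :
    L ⊕ ℙ F (L × L) := by
  classical
  exact if p.rep.1 = 0 then Sum.inr p else Sum.inl (p.rep.2 / p.rep.1)

theorem blockOf_inl {p : ℙ F (L × L)} {c : L} :
    blockOf F L p = Sum.inl c ↔ p.submodule ≤ spreadLine F L c := by
  rw [Projectivization.submodule_eq, Submodule.span_singleton_le_iff_mem, mem_spreadLine]
  unfold blockOf
  by_cases h : p.rep.1 = 0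
  · simp only [h, if_true, mul_zero]
    constructor
    · intro h'
      cases h'
    · intro h'
      exact absurd (Prod.ext h h') p.rep_nonzero
  · simp only [h, if_false]
    rw [Sum.inl.injEq, div_eq_iff h]

theorem blockOf_inr {p q : ℙ F (L × L)} (h : blockOf F L p = Sum.inr q) : p = q := by
  unfold blockOf at h
  by_cases h' : p.rep.1 = 0
  · simp only [h', if_true] at h
    exact Sum.inr.inj h
  · simp only [h', if_false] at h
    cases h

theorem submodule_ne_bot (p : ℙ F (L × L)) : p.submodule ≠ ⊥ := by
  intro h
  have h2 : p.rep ∈ p.submodule := by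
    rw [Projectivization.submodule_eq]
    exact Submodule.mem_span_singleton_self _
  rw [h] at h2
  exact p.rep_nonzero ((Submodule.mem_bot F).mp h2)

variable [FiniteDimensional F L]

/-- the rank of the projectivization matroid of `brokenSpread` -/
theorem brokenSpread_projRank_empty : (brokenSpread F L).projRank ∅ = 0 := by
  simp [QMatroid.projRank, brokenSpread_bot]

theorem brokenSpread_projRank_one {A : Set (ℙ F (L × L))} (hA : A.Nonempty)
    (h : ∀ p ∈ A, ∀ q ∈ A, blockOf F L p = blockOf F L q) : (brokenSpread F L).projRank A = 1 := by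
  obtain ⟨p, hp⟩ := hA
  have hne : (⨆ p ∈ A, p.submodule) ≠ (⊥ : Submodule F (L × L)) := by
    intro hbot
    have h1 : p.submodule ≤ (⊥ : Submodule F (L × L)) := by
      rw [← hbot]
      exact le_iSup₂_of_le p hp le_rfl
    exact submodule_ne_bot p (le_bot_iff.mp h1)
  apply brokenSpread_thin hne
  rcases hb : blockOf F L p with c | q
  · right
    refine ⟨c, iSup₂_le fun r hr => ?_⟩
    rw [← blockOf_inl, ← h p hp r hr, hb]
  · left
    have hq := blockOf_inr hb
    have : (⨆ p ∈ A, p.submodule) = p.submodule := by
      apply le_antisymm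
      · refine iSup₂_le fun r hr => ?_
        have := h p hp r hr
        rw [hb] at this
        have := blockOf_inr this.symm
        rw [this, ← hq]
      · exact le_iSup₂_of_le p hp le_rfl
    rw [this]
    exact Projectivization.finrank_submodule p

theorem brokenSpread_projRank_two {A : Set (ℙ F (L × L))} {p q : ℙ F (L × L)} (hp : p ∈ A)
    (hq : q ∈ A) (h : blockOf F L p ≠ blockOf F L q) : (brokenSpread F L).projRank A = 2 := by
  have hple : p.submodule ≤ (⨆ p ∈ A, p.submodule) := le_iSup₂_of_le p hp le_rfl
  have hqle : q.submodule ≤ (⨆ p ∈ A, p.submodule) := le_iSup₂_of_le q hq le_rfl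
  apply brokenSpread_not_thin
  · intro hbot
    rw [hbot] at hple
    exact submodule_ne_bot p (le_bot_iff.mp hple)
  · rintro (h1 | ⟨c, hc⟩)
    · have e1 := Submodule.eq_of_le_of_finrank_le hple (by
        rw [h1, Projectivization.finrank_submodule])
      have e2 := Submodule.eq_of_le_of_finrank_le hqle (by
        rw [h1, Projectivization.finrank_submodule])
      apply h
      rw [Projectivization.submodule_injective (e1.trans e2.symm)]
    · apply h
      rw [blockOf_inl.mpr (hple.trans hc), blockOf_inl.mpr (hqle.trans hc)]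


/-- there are `|L| + |ℙ F L|` blocks -/
theorem exists_color (F L K : Type) [Field F] [Field L] [Algebra F L] [Finite L]
    [Finite K] (hcard : Nat.card L + Nat.card (ℙ F L) ≤ Nat.card K) :
    ∃ t : ℙ F (L × L) → K, ∀ p q, t p = t q ↔ blockOf F L p = blockOf F L q := by
  classical
  have hfin : Finite (L ⊕ ℙ F L) := inferInstance
  have hc : Nat.card (L ⊕ ℙ F L) ≤ Nat.card K := by
    rw [Nat.card_sum]
    exact hcard
  obtain ⟨ι⟩ : Nonempty ((L ⊕ ℙ F L) ↪ K) := by
    have := Fintype.ofFinite (L ⊕ ℙ F L)
    have := Fintype.ofFinite K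
    rw [Nat.card_eq_fintype_card, Nat.card_eq_fintype_card] at hc
    exact Function.Embedding.nonempty_of_card_le hc
  have hne : ∀ p : ℙ F (L × L), p.rep.1 = 0 → p.rep.2 ≠ 0 := fun p h h' =>
    p.rep_nonzero (Prod.ext h h')
  refine ⟨fun p => if h : p.rep.1 = 0 then ι (Sum.inr (Projectivization.mk F p.rep.2 (hne p h)))
    else ι (Sum.inl (p.rep.2 / p.rep.1)), fun p q => ?_⟩
  unfold blockOf
  by_cases hp : p.rep.1 = 0
  · by_cases hq : q.rep.1 = 0
    · simp only [hp, hq, dif_pos, if_pos, ι.injective.eq_iff, Sum.inr.injEq]
      rw [Projectivization.mk_eq_mk_iff']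
      constructor
      · rintro ⟨a, ha⟩
        have h1 : a • q.rep = p.rep := Prod.ext (by simp [hp, hq]) (by simpa using ha)
        rw [← p.mk_rep, ← q.mk_rep, Projectivization.mk_eq_mk_iff']
        exact ⟨a, h1⟩
      · rintro rfl
        exact ⟨1, by simp⟩
    · simp only [hp, hq, dif_pos, if_pos, ι.injective.eq_iff, if_false, dif_neg, not_false_eq_true,
        reduceCtorEq]
  · by_cases hq : q.rep.1 = 0
    · simp only [hp, hq, dif_pos, if_pos, ι.injective.eq_iff, if_false, dif_neg, not_false_eq_true,
        reduceCtorEq]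
    · simp only [hp, hq, ι.injective.eq_iff, if_false, dif_neg, not_false_eq_true,
        Sum.inl.injEq]

theorem brokenSpread_proj_representable (K : Type) [Finite L] [Field K] [Finite K]
    (hcard : Nat.card L + Nat.card (ℙ F L) ≤ Nat.card K) :
    IsRepresentable K (brokenSpread F L).projRank := by
  obtain ⟨t, ht⟩ := exists_color F L K hcard
  obtain ⟨n, ⟨e⟩⟩ := Finite.exists_equiv_fin (ℙ F (L × L))
  refine ⟨2, n, Matrix.of fun i j => ![1, t (e.symm j)] i, e, fun A => ?_⟩
  have himg : ((fun j => (Matrix.of fun (i : Fin 2) (j : Fin n) => ![1, t (e.symm j)] i).col j) ''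
      (e '' A)) = (fun p => (![1, t p] : Fin 2 → K)) '' A := by
    rw [Set.image_image]
    apply Set.image_congr
    intro p _
    funext i
    simp [Matrix.col_apply]
  rw [himg]
  rcases A.eq_empty_or_nonempty with rfl | hA
  · rw [brokenSpread_projRank_empty, Set.image_empty, Submodule.span_empty, finrank_bot]
  · by_cases hall : ∀ p ∈ A, ∀ q ∈ A, blockOf F L p = blockOf F L q
    · rw [brokenSpread_projRank_one hA hall]
      obtain ⟨p, hp⟩ := hA
      have : (fun p => (![1, t p] : Fin 2 → K)) '' A = {(![1, t p] : Fin 2 → K)} := by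
        ext x
        constructor
        · rintro ⟨q, hq, rfl⟩
          have := (ht q p).mpr (hall q hq p hp)
          simp [this]
        · rintro rfl
          exact ⟨p, hp, rfl⟩
      rw [this, finrank_span_singleton]
      intro h
      have := congrFun h 0
      simp at this
    · push Not at hall
      obtain ⟨p, hp, q, hq, hpq⟩ := hall
      rw [brokenSpread_projRank_two hp hq hpq]
      have hne : t p ≠ t q := fun h => hpq ((ht p q).mp h)
      have htop : Submodule.span K ((fun p => (![1, t p] : Fin 2 → K)) '' A) = ⊤ := by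
        rw [eq_top_iff]
        have h1 : (![1, t p] : Fin 2 → K) ∈
            Submodule.span K ((fun p => (![1, t p] : Fin 2 → K)) '' A) :=
          Submodule.subset_span ⟨p, hp, rfl⟩
        have h2 : (![1, t q] : Fin 2 → K) ∈
            Submodule.span K ((fun p => (![1, t p] : Fin 2 → K)) '' A) :=
          Submodule.subset_span ⟨q, hq, rfl⟩
        intro v _
        have hd : t p - t q ≠ 0 := sub_ne_zero.mpr hne
        have : v = ((v 1 - t q * v 0) / (t p - t q)) • (![1, t p] : Fin 2 → K) +
            ((t p * v 0 - v 1) / (t p - t q)) • (![1, t q] : Fin 2 → K) := by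
          funext i
          fin_cases i
          · simp
            field_simp
            ring
          · simp
            field_simp
            ring
        rw [this]
        exact Submodule.add_mem _ (Submodule.smul_mem _ _ h1) (Submodule.smul_mem _ _ h2)
      rw [htop, finrank_top, Module.finrank_fin_fun]


/-- an element used to show that all multiplications are scalar -/
theorem exists_good (L : Type) [Field L] (h : ∃ g : L, g ≠ 0 ∧ g ≠ 1) :
    ∃ g : L, g ≠ 0 ∧ g ≠ -1 ∧ g ^ 2 ≠ -1 := by
  by_cases h1 : (1 : L) = -1
  · obtain ⟨g, hg0, hg1⟩ := h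
    refine ⟨g, hg0, by rwa [← h1], ?_⟩
    rw [← h1]
    intro hg
    have : (g - 1) * (g + 1) = 0 := by ring_nf; rw [hg]; ring
    rcases mul_eq_zero.mp this with h2 | h2
    · exact hg1 (sub_eq_zero.mp h2)
    · exact hg1 (by rw [h1]; exact eq_neg_of_add_eq_zero_left h2)
  · exact ⟨1, one_ne_zero, h1, by simpa using h1⟩

theorem brokenSpread_not_representable (K : Type) [Field K] [Algebra F K]
    (hdim : finrank F L = 2) : ¬ (brokenSpread F L).IsRepresentable K := by
  intro hrep
  obtain ⟨k, φ, hφ⟩ := hrep.exists_linearMap
  -- there is an element of `L` different from `0` and `1`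
  have hexists : ∃ g : L, g ≠ 0 ∧ g ≠ 1 := by
    by_contra hcon
    push Not at hcon
    have h1 : (⊤ : Submodule F L) ≤ Submodule.span F {(1 : L)} := by
      intro x _
      rw [Submodule.mem_span_singleton]
      by_cases hx : x = 0
      · exact ⟨0, by simp [hx]⟩
      · exact ⟨1, by simp [hcon x hx]⟩
    have h2 := Submodule.finrank_mono h1
    rw [finrank_top, hdim, finrank_span_singleton (one_ne_zero)] at h2
    omega
  obtain ⟨g, hg0, hg1, hg2⟩ := exists_good L hexists
  -- `φ` kills no nonzero vector
  have hinj : ∀ v : L × L, v ≠ 0 → φ v ≠ 0 := by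
    intro v hv h0
    have hne : Submodule.span F {v} ≠ ⊥ := by
      rw [Ne, Submodule.span_singleton_eq_bot]
      exact hv
    have h1 : (brokenSpread F L).rk (Submodule.span F {v}) = 1 :=
      brokenSpread_thin hne (Or.inl (finrank_span_singleton hv))
    rw [hφ] at h1
    have h2 : Submodule.span K (φ '' (Submodule.span F {v} : Set (L × L))) = ⊥ := by
      rw [Submodule.span_eq_bot]
      rintro _ ⟨w, hw, rfl⟩
      obtain ⟨a, rfl⟩ := Submodule.mem_span_singleton.mp hw
      rw [map_smul, h0, smul_zero]
    rw [h2, finrank_bot] at h1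
    omega
  -- each line `y = c x` is mapped into a `K`-line
  have hline : ∀ c : L, ∃ u : Fin k → K, ∀ x : L, ∃ a : K, φ (x, c * x) = a • u := by
    intro c
    have hne : spreadLine F L c ≠ ⊥ := by
      intro h
      have : ((1 : L), c * 1) ∈ spreadLine F L c := mem_spreadLine.mpr rfl
      rw [h, Submodule.mem_bot] at this
      exact one_ne_zero (congrArg Prod.fst this)
    have h1 : (brokenSpread F L).rk (spreadLine F L c) = 1 :=
      brokenSpread_thin hne (Or.inr ⟨c, le_rfl⟩)
    rw [hφ] at h1
    obtain ⟨u, hu⟩ := finrank_le_one_iff.mp h1.le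
    refine ⟨u, fun x => ?_⟩
    obtain ⟨a, ha⟩ := hu ⟨φ (x, c * x), Submodule.subset_span ⟨_, mem_spreadLine.mpr rfl, rfl⟩⟩
    exact ⟨a, by simpa using (congrArg Subtype.val ha).symm⟩
  obtain ⟨u, hu⟩ := hline 0
  obtain ⟨w, hw⟩ := hline 1
  choose α hα using hu
  choose β hβ using hw
  simp only [zero_mul, one_mul] at hα hβ
  have hsecond : ∀ x : L, φ (0, x) = β x • w - α x • u := by
    intro x
    rw [← hα, ← hβ, ← map_sub]
    simp
  -- `u` and `w` are linearly independent
  have hind : LinearIndependent K ![u, w] := by
    have htop : (brokenSpread F L).rk ⊤ = 2 := by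
      apply brokenSpread_not_thin
      · exact top_ne_bot
      · rintro (h | ⟨c, hc⟩)
        · rw [finrank_top, Module.finrank_prod, hdim] at h
          omega
        · have : ((0 : L), (1 : L)) ∈ spreadLine F L c := hc Submodule.mem_top
          rw [mem_spreadLine] at this
          simp at this
    rw [hφ] at htop
    have hle : Submodule.span K (φ '' ((⊤ : Submodule F (L × L)) : Set (L × L))) ≤
        Submodule.span K (Set.range ![u, w]) := by
      rw [Submodule.span_le]
      rintro _ ⟨⟨x, y⟩, _, rfl⟩
      have h1 : φ (x, y) = φ (x, 0) + φ (0, y) := by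
        rw [← map_add]
        simp
      rw [h1, hsecond, hα]
      have hu' : u ∈ Submodule.span K (Set.range ![u, w]) := Submodule.subset_span ⟨0, rfl⟩
      have hw' : w ∈ Submodule.span K (Set.range ![u, w]) := Submodule.subset_span ⟨1, rfl⟩
      exact Submodule.add_mem _ (Submodule.smul_mem _ _ hu')
        (Submodule.sub_mem _ (Submodule.smul_mem _ _ hw') (Submodule.smul_mem _ _ hu'))
    rw [linearIndependent_iff_card_le_finrank_span]
    have h3 := Submodule.finrank_mono hle
    rw [htop] at h3
    simpa [Set.finrank] using h3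
  have hpair : ∀ a b : K, a • u + b • w = 0 → a = 0 ∧ b = 0 :=
    LinearIndependent.pair_iff.mp hind
  have hβ0 : ∀ x, x ≠ 0 → β x ≠ 0 := by
    intro x hx h
    apply hinj (x, x) (fun h' => hx (congrArg Prod.fst h'))
    rw [hβ, h, zero_smul]
  have hα0 : ∀ x, x ≠ 0 → α x ≠ 0 := by
    intro x hx h
    apply hinj (x, 0) (fun h' => hx (congrArg Prod.fst h'))
    rw [hα, h, zero_smul]
  have hu0 : u ≠ 0 := by
    intro h
    have := hpair 1 0 (by simp [h])
    exact one_ne_zero this.1
  have hαadd : ∀ x y, α (x - y) = α x - α y := by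
    intro x y
    have h1 : α (x - y) • u = (α x - α y) • u := by
      rw [sub_smul, ← hα, ← hα, ← hα, ← map_sub]
      simp
    exact smul_left_injective K hu0 h1
  -- the multiplier of `y ↦ (h - 1) ...`
  have hmul : ∀ h : L, h ≠ 0 → h ≠ -1 → ∃ m : K, m ≠ 0 ∧ ∀ y, α (h * y) = m * β y := by
    intro h hh0 hh1
    -- use the line with slope `c = (h + 1)⁻¹`
    have hd0 : h + 1 ≠ 0 := fun e => hh1 (eq_neg_of_add_eq_zero_left e)
    obtain ⟨z, hz⟩ := hline (h + 1)⁻¹
    have hval : ∀ y : L, ∃ a : K, α (h * y) • u + β y • w = a • z := by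
      intro y
      obtain ⟨a, ha⟩ := hz ((h + 1) * y)
      refine ⟨a, ?_⟩
      rw [← ha, inv_mul_cancel_left₀ hd0]
      have h1 : φ ((h + 1) * y, y) = φ ((h + 1) * y, 0) + φ (0, y) := by
        rw [← map_add]
        simp
      rw [h1, hsecond, hα]
      have h2 : α (h * y) = α ((h + 1) * y) - α y := by
        rw [← hαadd]
        congr 1
        ring
      rw [h2]
      module
    obtain ⟨a1, ha1⟩ := hval 1
    have hβ1 : β 1 ≠ 0 := hβ0 1 one_ne_zero
    have ha1' : a1 ≠ 0 := by
      intro h0
      rw [h0, zero_smul] at ha1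
      exact hβ1 (hpair _ _ ha1).2
    refine ⟨α (h * 1) / β 1, div_ne_zero (hα0 _ (by simpa using hh0)) hβ1, fun y => ?_⟩
    obtain ⟨a, ha⟩ := hval y
    have hcomb : (a1 * α (h * y) - a * α (h * 1)) • u + (a1 * β y - a * β 1) • w = 0 := by
      have e1 : a1 • (α (h * y) • u + β y • w) = a • (α (h * 1) • u + β 1 • w) := by
        rw [ha, ha1, smul_smul, smul_smul, mul_comm]
      have e2 : (a1 * α (h * y) - a * α (h * 1)) • u + (a1 * β y - a * β 1) • w =
          a1 • (α (h * y) • u + β y • w) - a • (α (h * 1) • u + β 1 • w) := by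
        module
      rw [e2, e1, sub_self]
    obtain ⟨e1, e2⟩ := hpair _ _ hcomb
    have e3 : a1 * (α (h * y) * β 1 - α (h * 1) * β y) = 0 := by
      linear_combination β 1 * e1 - α (h * 1) * e2
    rcases mul_eq_zero.mp e3 with e4 | e4
    · exact absurd e4 ha1'
    · rw [div_mul_eq_mul_div, eq_div_iff hβ1]
      linear_combination e4
  obtain ⟨m1, hm1, hm1'⟩ := hmul g hg0 hg1
  obtain ⟨m2, hm2, hm2'⟩ := hmul (g ^ 2) (pow_ne_zero 2 hg0) hg2
  -- `β` is proportional to `α`
  have hprop : ∀ y, β y = (m2 / m1 ^ 2) * α y := by
    intro y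
    have e1 : α (g * y) = m1 * β y := hm1' y
    have e2 : α y = m1 * β (g⁻¹ * y) := by
      rw [← hm1', mul_inv_cancel_left₀ hg0]
    have e3 : α (g * y) = m2 * β (g⁻¹ * y) := by
      rw [← hm2']
      congr 1
      rw [sq, mul_assoc, mul_inv_cancel_left₀ hg0]
    have e4 : β (g⁻¹ * y) = α y / m1 := by
      rw [e2]
      field_simp
    rw [e4] at e3
    rw [e3] at e1
    field_simp at e1 ⊢
    linear_combination -e1
  -- so the broken line is mapped into a `K`-line
  let V : Submodule F (L × L) := LinearMap.range (LinearMap.inr F L L)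
  have hV : (brokenSpread F L).rk V = 2 := by
    apply brokenSpread_not_thin
    · intro h
      have : LinearMap.inr F L L 1 ∈ V := ⟨1, rfl⟩
      rw [h, Submodule.mem_bot] at this
      exact one_ne_zero (congrArg Prod.snd this)
    · rintro (h | ⟨c, hc⟩)
      · have : finrank F V = 2 := by
          rw [← hdim]
          exact LinearMap.finrank_range_of_inj LinearMap.inr_injective
        omega
      · have : LinearMap.inr F L L 1 ∈ spreadLine F L c := hc ⟨1, rfl⟩
        rw [mem_spreadLine] at this
        simp at this
  rw [hφ] at hV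
  have hle : Submodule.span K (φ '' (V : Set (L × L))) ≤
      Submodule.span K {(m2 / m1 ^ 2) • w - u} := by
    rw [Submodule.span_le]
    rintro _ ⟨_, ⟨x, rfl⟩, rfl⟩
    have : φ (LinearMap.inr F L L x) = α x • ((m2 / m1 ^ 2) • w - u) := by
      rw [LinearMap.inr_apply, hsecond, hprop]
      module
    rw [SetLike.mem_coe, this]
    exact Submodule.smul_mem _ _ (Submodule.mem_span_singleton_self _)
  have h3 := Submodule.finrank_mono hle
  have h4 : finrank K (Submodule.span K {(m2 / m1 ^ 2) • w - u}) ≤ 1 := finrank_span_le_card _ |>.trans (by simp)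
  omega

end Broken

end Pool.Agent.QMat

namespace Pool.Agent.Results.MP_4d2e3d_co.NeverRep

open Pool.Agent.QMat

theorem result :
    ∀ (F : Type) [Field F] [Finite F],
      ∃ (E : Type) (_ : AddCommGroup E) (_ : Module F E) (M : QMatroid F E),
        finrank F E = 4 ∧ M.rk ⊤ = 2 ∧
        (∀ V : Submodule F E, finrank F V = 1 → M.rk V = 1) ∧
        (∀ (K : Type) [Field K] [Finite K] [Algebra F K],
          3 ≤ finrank F K → IsRepresentable K M.projRank) ∧
        (∀ (K : Type) [Field K] [Algebra F K], ¬ M.IsRepresentable K) := by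
  intro F _ _
  obtain ⟨p, hp⟩ := CharP.exists F
  have hprime : Fact p.Prime := ⟨CharP.char_is_prime F p⟩
  let L := FiniteField.Extension F p 2
  have hL : finrank F L = 2 := FiniteField.finrank_extension F p 2
  have hLcard : Nat.card L = Nat.card F ^ 2 := FiniteField.natCard_extension F p 2
  have hfd : FiniteDimensional F L := Module.Finite.of_finite
  refine ⟨L × L, inferInstance, inferInstance, brokenSpread F L, ?_, ?_, ?_, ?_, ?_⟩
  · rw [Module.finrank_prod, hL]
  · apply brokenSpread_not_thin top_ne_bot
    rintro (h | ⟨c, hc⟩)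
    · rw [finrank_top, Module.finrank_prod, hL] at h
      omega
    · have : ((0 : L), (1 : L)) ∈ spreadLine F L c := hc Submodule.mem_top
      rw [mem_spreadLine] at this
      simp at this
  · intro V hV
    apply brokenSpread_thin _ (Or.inl hV)
    rintro rfl
    rw [finrank_bot] at hV
    omega
  · intro K _ _ _ hK
    apply brokenSpread_proj_representable
    rw [Projectivization.card_of_finrank_two F L hL, hLcard]
    have hfdK : FiniteDimensional F K := Module.Finite.of_finite
    have h1 : Nat.card K = Nat.card F ^ finrank F K := Module.natCard_eq_pow_finrank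
    have hq : 1 < Nat.card F := Finite.one_lt_card
    rw [h1]
    calc Nat.card F ^ 2 + (Nat.card F + 1) ≤ Nat.card F ^ 3 := by
            nlinarith [sq_nonneg (Nat.card F : ℤ), Nat.mul_le_mul hq (Nat.mul_le_mul hq hq),
              Nat.mul_le_mul hq hq]
      _ ≤ Nat.card F ^ finrank F K := Nat.pow_le_pow_right hq.le hK
  · intro K _ _
    exact brokenSpread_not_representable K hL

end Pool.Agent.Results.MP_4d2e3d_co.NeverRep
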